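import Pool.Agent.Work.MP_223b32_FY.Interface

/-!
Block ARI of the relative version of the project fixed finite field (MP_223b32_ag):
admissible degrees exist.
-/

namespace Pool.Agent.Work.FY

open Finset

namespace ARI

/-- A finite set of positive integers has product at least the factorial of its size. -/
theorem fact_le_prod : ∀ (n : ℕ) (S : Finset ℕ), S.card = n → (∀ p ∈ S, 0 < p) →
    n.factorial ≤ ∏ p ∈ S, p := by
  intro n
  induction n with
  | zero =>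
    intro S hS _
    rw [Finset.card_eq_zero] at hS
    subst hS
    simp
  | succ n ih =>
    intro S hS hpos
    have hne : S.Nonempty := by
      rw [← Finset.card_pos]; omega
    set M := S.max' hne with hM
    have hMS : M ∈ S := S.max'_mem hne
    have hcard : S.card ≤ M := by
      have hsub : S ⊆ Finset.Icc 1 M := by
        intro p hp
        rw [Finset.mem_Icc]
        exact ⟨hpos p hp, S.le_max' p hp⟩
      have := Finset.card_le_card hsub
      simpa using this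
    have h1 := ih (S.erase M) (by rw [Finset.card_erase_of_mem hMS]; omega)
      (fun p hp => hpos p (Finset.mem_of_mem_erase hp))
    rw [← Finset.mul_prod_erase S (fun p => p) hMS, Nat.factorial_succ]
    exact Nat.mul_le_mul (by omega) h1

theorem eventually_fact : ∃ n₀ : ℕ, ∀ n, n₀ ≤ n → 16000000 * 64 ^ n ≤ n.factorial := by
  have h := FloorSemiring.tendsto_pow_div_factorial_atTop (64 : ℝ)
  have h2 := (h.eventually (gt_mem_nhds (show (0 : ℝ) < 1 / 16000000 by norm_num)))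
  obtain ⟨n₀, hn₀⟩ := Filter.eventually_atTop.1 h2
  refine ⟨n₀, fun n hn => ?_⟩
  have h3 := hn₀ n hn
  have hf : (0 : ℝ) < (n.factorial : ℝ) := by exact_mod_cast n.factorial_pos
  rw [div_lt_iff₀ hf] at h3
  have h4 : (16000000 : ℝ) * 64 ^ n ≤ (n.factorial : ℝ) := by linarith
  exact_mod_cast h4

/-- The forbidden residue classes. -/
def Bad (g η p v : ℕ) : Prop :=
  (p ∣ g - η ∧ p ∣ 2 * v + 1) ∨ (p ∣ g + η ∧ p ∣ 2 * v + 2) ∨ (p ∣ g ∧ p ∣ 4 * v + 3)

theorem odd_not_dvd {p n : ℕ} (hp : p.Prime) (h2 : p ≠ 2) (hn : n = 1 ∨ n = 2 ∨ n = 4) :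
    ¬ p ∣ n := by
  intro h
  rcases hn with rfl | rfl | rfl
  · exact hp.one_lt.ne' (Nat.dvd_one.1 h)
  · exact h2 ((Nat.prime_dvd_prime_iff_eq hp Nat.prime_two).1 h)
  · have : p ∣ 2 := hp.dvd_of_dvd_pow (show p ∣ 2 ^ 2 by simpa using h)
    exact h2 ((Nat.prime_dvd_prime_iff_eq hp Nat.prime_two).1 this)

theorem class_unique {g η p v v' : ℕ} (hp : p.Prime) (h2 : p ≠ 2) (hη : η = 1 ∨ η = 2)
    (hg : η ≤ g) (h : Bad g η p v) (h' : Bad g η p v') : v ≡ v' [MOD p] := by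
  have k1 : ¬ p ∣ η := odd_not_dvd hp h2 (by tauto)
  have k2 : ¬ p ∣ 2 * η := odd_not_dvd hp h2 (by rcases hη with rfl | rfl <;> simp)
  have e1 : p ∣ g - η → p ∣ g → False := fun a b => k1 <| by
    have := Nat.dvd_sub b a
    rwa [Nat.sub_sub_self hg] at this
  have e2 : p ∣ g - η → p ∣ g + η → False := fun a b => k2 <| by
    have := Nat.dvd_sub b a
    rwa [show g + η - (g - η) = 2 * η by omega] at this
  have e3 : p ∣ g → p ∣ g + η → False := fun a b => k1 <| by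
    have := Nat.dvd_sub b a
    rwa [show g + η - g = η by omega] at this
  have c2 : Nat.Coprime p 2 := (Nat.Prime.coprime_iff_not_dvd hp).2 (odd_not_dvd hp h2 (by simp))
  have c4 : Nat.Coprime p 4 := (Nat.Prime.coprime_iff_not_dvd hp).2 (odd_not_dvd hp h2 (by simp))
  have key : ∀ a b : ℕ, Nat.Coprime p a → p ∣ a * v + b → p ∣ a * v' + b → v ≡ v' [MOD p] := by
    intro a b ha hv hv'
    have m1 : a * v + b ≡ a * v' + b [MOD p] :=
      (Nat.modEq_zero_iff_dvd.2 hv).trans (Nat.modEq_zero_iff_dvd.2 hv').symm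
    exact Nat.ModEq.cancel_left_of_coprime ha (Nat.ModEq.add_right_cancel' b m1)
  rcases h with ⟨a, b⟩ | ⟨a, b⟩ | ⟨a, b⟩ <;> rcases h' with ⟨a', b'⟩ | ⟨a', b'⟩ | ⟨a', b'⟩
  · exact key 2 1 c2 b b'
  · exact (e2 a a').elim
  · exact (e1 a a').elim
  · exact (e2 a' a).elim
  · exact key 2 2 c2 b b'
  · exact (e3 a' a).elim
  · exact (e1 a' a).elim
  · exact (e3 a a').elim
  · exact key 4 3 c4 b b'

end ARI

/-- ARI -/
theorem stmt_ARI : Stmt_LEG → Stmt_ARI := by
  intro LEG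
  obtain ⟨n₀, hn₀⟩ := ARI.eventually_fact
  refine ⟨100 * (2 ^ n₀ * (n₀ + 1) + 1) + 10000, fun g hg => ?_⟩
  obtain ⟨η, hη, hpar⟩ : ∃ η : ℕ, (η = 1 ∨ η = 2) ∧ (η = 1 ∧ g % 2 = 0 ∨ η = 2 ∧ g % 2 = 1) := by
    rcases Nat.mod_two_eq_zero_or_one g with h | h
    · exact ⟨1, by simp, by simp [h]⟩
    · exact ⟨2, by simp, by simp [h]⟩
  have hηg : η ≤ g := by omega
  set P := (g - η) * g * (g + η) with hP
  have hP0 : 0 < P := by
    rw [hP]
    have : 0 < g - η := by omega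
    have : 0 < g := by omega
    positivity
  set S := P.primeFactors.erase 2 with hS
  have hSp : ∀ p ∈ S, p.Prime := fun p hp =>
    Nat.prime_of_mem_primeFactors (Finset.mem_of_mem_erase hp)
  have hS2 : ∀ p ∈ S, p ≠ 2 := fun p hp => Finset.ne_of_mem_erase hp
  set ω := S.card with hω
  -- size of `ω`
  have hfac : ω.factorial ≤ 2 * g ^ 3 := by
    have h1 := ARI.fact_le_prod ω S rfl (fun p hp => (hSp p hp).pos)
    have h2 : ∏ p ∈ S, p ∣ P :=
      (Finset.prod_dvd_prod_of_subset S P.primeFactors (fun p => p)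
        (Finset.erase_subset _ _)).trans (Nat.prod_primeFactors_dvd P)
    have h3 := Nat.le_of_dvd hP0 h2
    have h4 : P ≤ g * g * (2 * g) := by
      rw [hP]
      exact Nat.mul_le_mul (Nat.mul_le_mul (Nat.sub_le _ _) le_rfl) (by omega)
    calc ω.factorial ≤ P := h1.trans h3
      _ ≤ _ := h4
      _ = 2 * g ^ 3 := by ring
  have hsize : 2 ^ ω * (ω + 1) < g / 100 := by
    rcases le_or_gt n₀ ω with h | h
    · have h1 := hn₀ ω h
      have h2 : (200 * 4 ^ ω) ^ 3 ≤ g ^ 3 := by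
        have : (200 * 4 ^ ω) ^ 3 = 8000000 * 64 ^ ω := by
          rw [mul_pow, ← pow_mul, mul_comm ω 3, pow_mul]; norm_num
        omega
      have h3 : 200 * 4 ^ ω ≤ g := (Nat.pow_le_pow_iff_left (by norm_num)).1 h2
      have h4 : 2 ^ ω * (ω + 1) ≤ 4 ^ ω := by
        have : ω + 1 ≤ 2 ^ ω := Nat.lt_two_pow_self
        calc 2 ^ ω * (ω + 1) ≤ 2 ^ ω * 2 ^ ω := Nat.mul_le_mul le_rfl this
          _ = 4 ^ ω := by rw [← mul_pow]; norm_num
      have h5 : 0 < 4 ^ ω := by positivity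
      omega
    · have h1 : 2 ^ ω * (ω + 1) ≤ 2 ^ n₀ * (n₀ + 1) :=
        Nat.mul_le_mul (Nat.pow_le_pow_right (by norm_num) h.le) (by omega)
      omega
  obtain ⟨v, hv1, hv2, hv3⟩ := LEG S (ARI.Bad g η) hSp
    (by
      intro p hp
      by_cases h : ∃ v₀, ARI.Bad g η p v₀
      · obtain ⟨v₀, hv₀⟩ := h
        exact ⟨v₀, fun v hv => ARI.class_unique (hSp p hp) (hS2 p hp) hη hηg hv hv₀⟩
      · exact ⟨0, fun v hv => (h ⟨v, hv⟩).elim⟩) (g / 2000) (g / 100) hsize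
  -- every odd prime is harmless
  have good : ∀ p : ℕ, p.Prime → p ≠ 2 → ¬ ARI.Bad g η p v := by
    intro p hp hp2 hbad
    have hpP : p ∣ P := by
      rcases hbad with ⟨a, _⟩ | ⟨a, _⟩ | ⟨a, _⟩
      · exact Dvd.dvd.mul_right (Dvd.dvd.mul_right a _) _
      · exact Dvd.dvd.mul_left a _
      · exact Dvd.dvd.mul_right (Dvd.dvd.mul_left a _) _
    exact hv3 p (Finset.mem_erase.2 ⟨hp2, Nat.mem_primeFactors.2 ⟨hp, hpP, hP0.ne'⟩⟩) hbad
  obtain ⟨d₁, hd₁⟩ : ∃ d₁, g = d₁ + η * (4 * v + 3) := by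
    refine ⟨g - η * (4 * v + 3), ?_⟩
    have : η * (4 * v + 3) ≤ g := by rcases hη with rfl | rfl <;> omega
    omega
  have hodd : d₁ % 2 = 1 := by rcases hpar with ⟨rfl, h⟩ | ⟨rfl, h⟩ <;> omega
  have hne2 : ∀ p : ℕ, p ∣ d₁ → p ≠ 2 := by
    rintro p hp rfl
    omega
  have hpη : ∀ p : ℕ, p.Prime → p ≠ 2 → ¬ p ∣ η := fun p hp h2 =>
    ARI.odd_not_dvd hp h2 (by tauto)
  have C3 : Nat.Coprime d₁ (η * (2 * v + 1)) := by
    by_contra hcon
    obtain ⟨p, hp, h1, h2⟩ := Nat.Prime.not_coprime_iff_dvd.1 hcon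
    have hp2 := hne2 p h1
    have h3 : p ∣ 2 * v + 1 := (hp.dvd_mul.1 h2).resolve_left (hpη p hp hp2)
    refine good p hp hp2 (Or.inl ⟨?_, h3⟩)
    have : g - η = d₁ + 2 * (η * (2 * v + 1)) := by
      have e : η * (4 * v + 3) = 2 * (η * (2 * v + 1)) + η := by ring
      omega
    rw [this]
    exact Nat.dvd_add h1 (Dvd.dvd.mul_left h2 _)
  have C2 : Nat.Coprime d₁ (η * (2 * v + 2)) := by
    by_contra hcon
    obtain ⟨p, hp, h1, h2⟩ := Nat.Prime.not_coprime_iff_dvd.1 hcon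
    have hp2 := hne2 p h1
    have h3 : p ∣ 2 * v + 2 := (hp.dvd_mul.1 h2).resolve_left (hpη p hp hp2)
    refine good p hp hp2 (Or.inr (Or.inl ⟨?_, h3⟩))
    have : g + η = d₁ + 2 * (η * (2 * v + 2)) := by
      have e : 2 * (η * (2 * v + 2)) = η * (4 * v + 3) + η := by ring
      omega
    rw [this]
    exact Nat.dvd_add h1 (Dvd.dvd.mul_left h2 _)
  have Cg : Nat.Coprime d₁ g := by
    by_contra hcon
    obtain ⟨p, hp, h1, h2⟩ := Nat.Prime.not_coprime_iff_dvd.1 hcon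
    have hp2 := hne2 p h1
    have h3 : p ∣ η * (4 * v + 3) := by
      rw [hd₁] at h2
      exact (Nat.dvd_add_right h1).1 h2
    exact good p hp hp2 (Or.inr (Or.inr ⟨h2, (hp.dvd_mul.1 h3).resolve_left (hpη p hp hp2)⟩))
  refine ⟨η * (2 * v + 2), d₁, η * (2 * v + 2), η * (2 * v + 1),
    ⟨⟨?_, ?_, ?_, ?_, le_rfl, ?_, ?_, ?_, C3, η, ?_, ?_, ?_⟩, C2, Cg, ?_⟩, ?_⟩
  · rw [hd₁]; ring
  · rcases hη with rfl | rfl <;> omega
  · rcases hη with rfl | rfl <;> omega
  · rcases hη with rfl | rfl <;> omega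
  · rcases hη with rfl | rfl <;> omega
  · rcases hη with rfl | rfl <;> omega
  · rcases hη with rfl | rfl <;> omega
  · rcases hη with rfl | rfl
    · exact ⟨v + 1, by ring⟩
    · exact ⟨v + 1, by ring⟩
  · rcases hη with rfl | rfl <;> omega
  · rcases hη with rfl | rfl <;> omega
  · rcases hη with rfl | rfl <;> omega
  · rcases hη with rfl | rfl <;> omega

end Pool.Agent.Work.FY
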